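import Mathlib
import Pool.Agent.Helper71_HNF.Stmt

/-! Squad HNF: module SKEL. -/

set_option autoImplicit false

namespace Pool.Agent.HNF.H46

open Topology Set MeasureTheory

theorem pidx_cons_pos (a : ℕ × ℕ) (s : List (ℕ × ℕ)) : 0 < pidx (a :: s) := by
  unfold pidx
  have h1 : a.1 + 1 ≤ Nat.pair (a.1 + 1) a.2 := Nat.left_le_pair _ _
  have h2 : Nat.pair (a.1 + 1) a.2 ≤ Nat.pair (pidx s) (Nat.pair (a.1 + 1) a.2) :=
    Nat.right_le_pair _ _
  omega

theorem pidx_inj : ∀ s s' : List (ℕ × ℕ), pidx s = pidx s' → s = s'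
  | [], [], _ => rfl
  | [], a :: s, h => by
      have := pidx_cons_pos a s
      rw [← h] at this
      exact absurd this (by simp [pidx])
  | a :: s, [], h => by
      have := pidx_cons_pos a s
      rw [h] at this
      exact absurd this (by simp [pidx])
  | a :: s, a' :: s', h => by
      have h1 : Nat.pair (pidx s) (Nat.pair (a.1 + 1) a.2) =
          Nat.pair (pidx s') (Nat.pair (a'.1 + 1) a'.2) := by
        have : 3 * Nat.pair (pidx s) (Nat.pair (a.1 + 1) a.2) =
          3 * Nat.pair (pidx s') (Nat.pair (a'.1 + 1) a'.2) := h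
        omega
      rw [Nat.pair_eq_pair] at h1
      obtain ⟨h2, h3⟩ := h1
      rw [Nat.pair_eq_pair] at h3
      obtain ⟨h4, h5⟩ := h3
      have h6 := pidx_inj s s' h2
      have h7 : a = a' := Prod.ext (by omega) h5
      rw [h6, h7]

theorem nidx_pos (s : List (ℕ × ℕ)) (m : ℕ) (b : Bool) : 0 < nidx s m b := by
  unfold nidx
  split_ifs <;> omega

theorem nidx_inj {s s' : List (ℕ × ℕ)} {m m' : ℕ} {b b' : Bool}
    (h : nidx s m b = nidx s' m' b') : s = s' ∧ m = m' ∧ b = b' := by
  unfold nidx at h
  have h1 : Nat.pair (pidx s) m = Nat.pair (pidx s') m' ∧ b = b' := by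
    cases b <;> cases b' <;> simp at h ⊢ <;> omega
  rw [Nat.pair_eq_pair] at h1
  exact ⟨pidx_inj _ _ h1.1.1, h1.1.2, h1.2⟩

theorem vis_suffix {s : List (ℕ × ℕ)} {t m' : ℕ} (h : Vis s t m') :
    ∀ s₀ m b, t = nidx s₀ m b → ∃ a, (a :: s₀) <:+ s := by
  induction h with
  | here a s m b m' hm hm' =>
    intro s₀ m₀ b₀ h
    obtain ⟨h1, _, _⟩ := nidx_inj h
    rw [← h1]
    exact ⟨a, List.suffix_refl _⟩
  | later a s t m' h ih =>
    intro s₀ m b ht
    obtain ⟨a', ha'⟩ := ih s₀ m b ht
    exact ⟨a', ha'.trans (List.suffix_cons a s)⟩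

theorem hist_length (u : Univ) (n : ℕ) : (hist u n).length = n := by
  induction n with
  | zero => rfl
  | succ n ih => rw [hist, List.length_cons, ih]

/-- the `i`-th value of a history -/
def at_ (s : List (ℕ × ℕ)) (i : ℕ) : ℕ × ℕ := s.reverse.getD i (0, 0)

theorem hist_at (u : Univ) (n i : ℕ) (h : i < n) : at_ (hist u n) i = u i := by
  unfold at_
  induction n with
  | zero => omega
  | succ n ih =>
    rw [hist, List.reverse_cons]
    rcases Nat.lt_succ_iff_lt_or_eq.1 h with h | h
    · rw [List.getD_append _ _ _ _ (by rw [List.length_reverse, hist_length]; exact h)]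
      exact ih h
    · rw [List.getD_append_right _ _ _ _ (by rw [List.length_reverse, hist_length]; omega)]
      rw [List.length_reverse, hist_length, h]
      simp

theorem at_suffix {s s' : List (ℕ × ℕ)} (h : s <:+ s') {i : ℕ} (hi : i < s.length) :
    at_ s' i = at_ s i := by
  obtain ⟨r, rfl⟩ := h
  unfold at_
  rw [List.reverse_append, List.getD_append _ _ _ _ (by rw [List.length_reverse]; exact hi)]

theorem hist_eq (u : Univ) : ∀ (s : List (ℕ × ℕ)), (∀ i < s.length, at_ s i = u i) →
    hist u s.length = s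
  | [], _ => rfl
  | a :: s, h => by
      rw [List.length_cons, hist]
      have h1 : hist u s.length = s := by
        apply hist_eq u s
        intro i hi
        rw [← at_suffix (List.suffix_cons a s) hi]
        exact h i (by rw [List.length_cons]; omega)
      have h2 : u s.length = a := by
        rw [← h s.length (by rw [List.length_cons]; omega)]
        unfold at_
        rw [List.reverse_cons, List.getD_append_right _ _ _ _ (by rw [List.length_reverse])]
        simp
      rw [h1, h2]

/-- the decoding of a node -/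
noncomputable def dcd (t : ℕ) : List (ℕ × ℕ) × ℕ × Bool :=
  open Classical in
  if h : ∃ p : List (ℕ × ℕ) × ℕ × Bool, t = nidx p.1 p.2.1 p.2.2 then Classical.choose h
  else ([], 0, false)

theorem dcd_nidx (s : List (ℕ × ℕ)) (m : ℕ) (b : Bool) : dcd (nidx s m b) = (s, m, b) := by
  classical
  have h : ∃ p : List (ℕ × ℕ) × ℕ × Bool, nidx s m b = nidx p.1 p.2.1 p.2.2 := ⟨(s, m, b), rfl⟩
  unfold dcd
  rw [dif_pos h]
  obtain ⟨h1, h2, h3⟩ := nidx_inj (Classical.choose_spec h)
  exact Prod.ext h1.symm (Prod.ext h2.symm h3.symm)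

section

variable {G : Type} [Group G] [TopologicalSpace G] [IsTopologicalGroup G]

theorem isOpen_Pc (I : Idx) (N : LNorm G) (q : ℕ → G) (D : Dat G) (hD : Good I N q D) (t : ℕ) :
    IsOpen (Pc I N q D t) := by
  have h : Pc I N q D t =
      ⋃ x : {x // Rel I N q D t x}, {z | z * x.1⁻¹ * (D.v t)⁻¹ ∈ D.A t} := by
    ext z
    simp only [Set.mem_iUnion, Pc, Set.mem_setOf_eq]
    constructor
    · rintro ⟨a, ha, x, hx, rfl⟩
      exact ⟨⟨x, hx⟩, by simpa using ha⟩
    · rintro ⟨⟨x, hx⟩, h⟩
      exact ⟨_, h, x, hx, by group⟩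
  rw [h]
  apply isOpen_iUnion
  intro x
  exact (hD.A_open t).preimage (by fun_prop)

/-- the points with a chain of length `k` which ends at `t` -/
def EE (I : Idx) (N : LNorm G) (q : ℕ → G) (D : Dat G) : ℕ → ℕ → Set G
  | 0, t => {_z | t = 0}
  | k + 1, t => {z | (∃ s m b, IsNode s m b t) ∧ z ∈ Pc I N q D t ∧ z ∈ EE I N q D k (I.par t)}

theorem EE_unique (I : Idx) (N : LNorm G) (q : ℕ → G) (D : Dat G) (hD : Good I N q D) (z : G) :
    ∀ k t t', z ∈ EE I N q D k t → z ∈ EE I N q D k t' → t = t'
  | 0, t, t', h, h' => by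
      have h1 : t = 0 := h
      have h2 : t' = 0 := h'
      rw [h1, h2]
  | k + 1, t, t', h, h' => by
      obtain ⟨⟨s, m, b, hn, _⟩, h1, h2⟩ := h
      obtain ⟨⟨s', m', b', hn', _⟩, h1', h2'⟩ := h'
      have h3 := EE_unique I N q D hD z k _ _ h2 h2'
      by_contra hne
      have h4 : 0 < t := by rw [hn]; exact nidx_pos _ _ _
      have h5 : 0 < t' := by rw [hn']; exact nidx_pos _ _ _
      exact Set.disjoint_left.1 (hD.dec t t' h4 h5 hne h3) h1 h1'

/-- the `k`-th node of the chain of `z` -/
noncomputable def CC (I : Idx) (N : LNorm G) (q : ℕ → G) (D : Dat G) (k : ℕ) (z : G) : ℕ :=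
  open Classical in
  if h : ∃ t, z ∈ EE I N q D k t then Classical.choose h else 0

theorem CC_spec {I : Idx} {N : LNorm G} {q : ℕ → G} {D : Dat G} {k : ℕ} {z : G}
    (h : ∃ t, z ∈ EE I N q D k t) : z ∈ EE I N q D k (CC I N q D k z) := by
  classical
  unfold CC
  rw [dif_pos h]
  exact Classical.choose_spec h

theorem CC_eq {I : Idx} {N : LNorm G} {q : ℕ → G} {D : Dat G} (hD : Good I N q D) {k : ℕ} {z : G}
    {t : ℕ} (h : z ∈ EE I N q D k t) : CC I N q D k z = t :=
  EE_unique I N q D hD z k _ _ (CC_spec ⟨t, h⟩) h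

variable [MeasurableSpace G] [BorelSpace G]

theorem measurableSet_EE (I : Idx) (N : LNorm G) (q : ℕ → G) (D : Dat G) (hD : Good I N q D) :
    ∀ k t, MeasurableSet (EE I N q D k t)
  | 0, t => MeasurableSet.const _
  | k + 1, t => by
      have h : EE I N q D (k + 1) t = {_z | ∃ s m b, IsNode s m b t} ∩
          (Pc I N q D t ∩ EE I N q D k (I.par t)) := rfl
      rw [h]
      exact (MeasurableSet.const _).inter ((isOpen_Pc I N q D hD t).measurableSet.inter
        (measurableSet_EE I N q D hD k _))

theorem measurable_CC (I : Idx) (N : LNorm G) (q : ℕ → G) (D : Dat G) (hD : Good I N q D) (k : ℕ) :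
    Measurable (CC I N q D k) := by
  classical
  apply measurable_to_countable'
  intro t
  have h : CC I N q D k ⁻¹' {t} =
      EE I N q D k t ∪ ({_z | t = 0} ∩ (⋃ t', EE I N q D k t')ᶜ) := by
    ext z
    simp only [Set.mem_preimage, Set.mem_singleton_iff, Set.mem_union, Set.mem_inter_iff,
      Set.mem_setOf_eq, Set.mem_compl_iff, Set.mem_iUnion]
    by_cases hz : ∃ t', z ∈ EE I N q D k t'
    · constructor
      · intro h1
        left
        rw [← h1]
        exact CC_spec hz
      · rintro (h1 | ⟨_, h1⟩)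
        · exact CC_eq hD h1
        · exact absurd hz h1
    · have h0 : CC I N q D k z = 0 := by
        unfold CC
        rw [dif_neg hz]
      constructor
      · intro h1
        right
        exact ⟨by rw [← h1, h0], hz⟩
      · rintro (h1 | ⟨h1, _⟩)
        · exact absurd ⟨t, h1⟩ hz
        · rw [h0, h1]
  rw [h]
  exact (measurableSet_EE I N q D hD k t).union ((MeasurableSet.const _).inter
    (MeasurableSet.iUnion fun t' => measurableSet_EE I N q D hD k t').compl)

end

theorem skel : SkelStmt := by
  intro G _ _ _ _ _ _ I hI N q D hD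
  classical
  let c : G → ℕ → ℕ := fun z k => CC I N q D k z
  refine ⟨⋂ k, ⋃ t, EE I N q D k t, fun z i => at_ (dcd (CC I N q D (i + 2) z)).1 i,
    fun z k => (dcd (CC I N q D (k + 1) z)).2.2, ?_, ?_, ?_, ?_, ?_⟩
  · exact MeasurableSet.iInter fun k => MeasurableSet.iUnion fun t => measurableSet_EE I N q D hD k t
  · rw [measurable_pi_iff]
    intro i
    exact (measurable_from_nat (f := fun t => at_ (dcd t).1 i)).comp
      (measurable_CC I N q D hD (i + 2))
  · rw [measurable_pi_iff]
    intro k
    exact (measurable_from_nat (f := fun t => (dcd t).2.2)).comp (measurable_CC I N q D hD (k + 1))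
  · intro z hz
    have hz' : ∀ k, z ∈ EE I N q D k (CC I N q D k z) := fun k => by
      have := Set.mem_iInter.1 hz k
      exact CC_spec (Set.mem_iUnion.1 this)
    have h0 : CC I N q D 0 z = 0 := hz' 0
    have hnode : ∀ k, ∃ s m b, IsNode s m b (CC I N q D (k + 1) z) := fun k => (hz' (k + 1)).1
    have hmem : ∀ k, z ∈ Pc I N q D (CC I N q D (k + 1) z) := fun k => (hz' (k + 1)).2.1
    have hpar : ∀ k, I.par (CC I N q D (k + 1) z) = CC I N q D k z := fun k =>
      (CC_eq hD (hz' (k + 1)).2.2).symm
    choose s m b hs using hnode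
    have hd : ∀ k, dcd (CC I N q D (k + 1) z) = (s k, m k, b k) := fun k => by
      rw [(hs k).1]
      exact dcd_nidx _ _ _
    have hlab : ∀ k, (lab (s k)).1 = CC I N q D k z := fun k => by
      rw [← hpar k]
      exact (hI.1 _ _ _ _ (hs k)).1.symm
    have hsuf : ∀ k, ∃ a, (a :: s k) <:+ s (k + 1) := by
      intro k
      have h1 := (hs (k + 1)).2.2
      rw [hlab (k + 1)] at h1
      rcases h1 with h1 | h1
      · have := nidx_pos (s k) (m k) (b k)
        rw [← (hs k).1, h1] at this
        exact absurd this (lt_irrefl 0)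
      · exact vis_suffix h1 _ _ _ (hs k).1
    have hlen : ∀ k, k + 1 ≤ (s k).length := by
      intro k
      induction k with
      | zero =>
        have := (hs 0).2.1
        exact List.length_pos_iff.2 this
      | succ k ih =>
        obtain ⟨a, ha⟩ := hsuf k
        have := ha.length_le
        rw [List.length_cons] at this
        omega
    have hmono : ∀ j k, j ≤ k → s j <:+ s k := by
      intro j k hjk
      induction k, hjk using Nat.le_induction with
      | base => exact List.suffix_refl _
      | succ k _ ih =>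
        obtain ⟨a, ha⟩ := hsuf k
        exact ih.trans ((List.suffix_cons a (s k)).trans ha)
    have hu : ∀ k, ∀ i < (s k).length, at_ (s k) i = at_ (dcd (CC I N q D (i + 2) z)).1 i := by
      intro k i hi
      rw [hd (i + 1)]
      rcases le_total k (i + 1) with h | h
      · exact (at_suffix (hmono _ _ h) hi).symm
      · exact at_suffix (hmono _ _ h) (by have := hlen (i + 1); omega)
    have hh : ∀ k, hist (fun i => at_ (dcd (CC I N q D (i + 2) z)).1 i) (s k).length = s k :=
      fun k => hist_eq _ _ (hu k)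
    refine ⟨fun k => (s k).length, m, fun k => CC I N q D k z, h0, ?_, ?_, hmem⟩
    · intro k
      show IsNode (hist (fun i => at_ (dcd (CC I N q D (i + 2) z)).1 i) (s k).length) (m k)
        (dcd (CC I N q D (k + 1) z)).2.2 (CC I N q D (k + 1) z)
      rw [hh k, hd k]
      exact hs k
    · intro k
      show (lab (hist (fun i => at_ (dcd (CC I N q D (i + 2) z)).1 i) (s k).length)).1 = _
      rw [hh k]
      exact hlab k
  · rintro u x z ⟨n, m, c, hc⟩
    have hpar : ∀ k, I.par (c (k + 1)) = c k := fun k => by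
      rw [(hI.1 _ _ _ _ (hc.node k)).1, hc.par k]
    have hE : ∀ k, z ∈ EE I N q D k (c k) := by
      intro k
      induction k with
      | zero => exact hc.zero
      | succ k ih => exact ⟨⟨_, _, _, hc.node k⟩, hc.mem k, by rw [hpar k]; exact ih⟩
    have hC : ∀ k, CC I N q D k z = c k := fun k => CC_eq hD (hE k)
    have hd : ∀ k, dcd (CC I N q D (k + 1) z) = (hist u (n k), m k, x k) := fun k => by
      rw [hC, (hc.node k).1]
      exact dcd_nidx _ _ _
    have hlen : ∀ k, k + 1 ≤ n k := by
      intro k
      induction k with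
      | zero =>
        have := (hc.node 0).2.1
        have := List.length_pos_iff.2 this
        rw [hist_length] at this
        exact this
      | succ k ih =>
        have h1 := (hc.node (k + 1)).2.2
        rw [hc.par (k + 1)] at h1
        rcases h1 with h1 | h1
        · have := nidx_pos (hist u (n k)) (m k) (x k)
          rw [← (hc.node k).1, h1] at this
          exact absurd this (lt_irrefl 0)
        · obtain ⟨a, ha⟩ := vis_suffix h1 _ _ _ (hc.node k).1
          have := ha.length_le
          rw [List.length_cons, hist_length, hist_length] at this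
          omega
    refine ⟨?_, ?_, ?_⟩
    · exact Set.mem_iInter.2 fun k => Set.mem_iUnion.2 ⟨c k, hE k⟩
    · funext i
      show at_ (dcd (CC I N q D (i + 2) z)).1 i = u i
      rw [hd (i + 1)]
      exact hist_at u _ i (by have := hlen (i + 1); omega)
    · funext k
      show (dcd (CC I N q D (k + 1) z)).2.2 = x k
      rw [hd k]

end Pool.Agent.HNF.H46
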