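import Mathlib
import Pool.Agent.Helper71_HNF.Stmt
import Pool.Agent.Helper46_HNF.Skel

/-! Squad HNF: module CAPT. -/

set_option autoImplicit false

namespace Pool.Agent.HNF.H46

open Topology Set MeasureTheory

theorem fin_cover {X : Type} [TopologicalSpace X] {K : Set X} (hK : IsCompact K)
    (U : ℕ → Set X) (hU : ∀ i, IsOpen (U i)) (h : ∀ k ∈ K, ∃ i, k ∈ U i) :
    ∃ m, ∀ k ∈ K, ∃ i < m, k ∈ U i := by
  obtain ⟨t, ht⟩ := hK.elim_finite_subcover U hU (fun k hk => Set.mem_iUnion.2 (h k hk))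
  refine ⟨t.sup id + 1, fun k hk => ?_⟩
  have h1 := ht hk
  simp only [Set.mem_iUnion] at h1
  obtain ⟨i, hi, h2⟩ := h1
  exact ⟨i, Nat.lt_succ_of_le (Finset.le_sup (f := id) hi), h2⟩

section

variable {G : Type} [Group G] [TopologicalSpace G] [IsTopologicalGroup G]

theorem cover_eta (N : LNorm G) (q : ℕ → G) (hq : DenseRange q) (K : Set G) (hK : IsCompact K)
    (η : ℝ) (hη : 0 < η) : ∃ m, ∀ k ∈ K, ∃ i < m, N.N ((q i)⁻¹ * k) < η := by
  have hc := N.cont
  apply fin_cover hK (fun i => {k | N.N ((q i)⁻¹ * k) < η})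
  · intro i
    exact isOpen_lt (hc.comp (by fun_prop)) continuous_const
  · intro k _
    have ho : IsOpen {y | N.N (y⁻¹ * k) < η} :=
      isOpen_lt (hc.comp (by fun_prop)) continuous_const
    have hk : k ∈ {y | N.N (y⁻¹ * k) < η} := by
      show N.N (k⁻¹ * k) < η
      rw [inv_mul_cancel, N.one]
      exact hη
    exact hq.exists_mem_open ho ⟨k, hk⟩

theorem cover_L (q : ℕ → G) (hq : DenseRange q) (K : Set G) (hK : IsCompact K)
    (L : Set G) (hL : IsOpen L) (h1 : (1 : G) ∈ L) (g : G) :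
    ∃ m, ∀ k ∈ K, ∃ j < m, ∃ l ∈ L, g * k = l * (g * q j) := by
  obtain ⟨m, hm⟩ := fin_cover hK (fun j => {k | g * k * (g * q j)⁻¹ ∈ L})
    (fun j => hL.preimage (by fun_prop)) (by
      intro k _
      have ho : IsOpen {y | g * k * (g * y)⁻¹ ∈ L} := hL.preimage (by fun_prop)
      have hk : k ∈ {y | g * k * (g * y)⁻¹ ∈ L} := by
        show g * k * (g * k)⁻¹ ∈ L
        rw [mul_inv_cancel]
        exact h1
      exact hq.exists_mem_open ho ⟨k, hk⟩)
  refine ⟨m, fun k hk => ?_⟩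
  obtain ⟨j, hj, h⟩ := hm k hk
  exact ⟨j, hj, _, h, by group⟩

theorem lev_compact (N : LNorm G) (e : ℝ) (he : 0 < e) (g : G) (K : Set G) (hK : IsCompact K) :
    ∃ j : ℕ, ∀ k ∈ K, Lev N e (g * k) (1 / ((j : ℝ) + 1)) := by
  have hc := N.cont
  have hmono : ∀ (x : G) (r r' : ℝ), r' ≤ r → Lev N e x r → Lev N e x r' :=
    fun x r r' h h1 y hy => h.trans (h1 y hy)
  have hdiv : ∀ i j : ℕ, i ≤ j → 1 / ((j : ℝ) + 1) ≤ 1 / ((i : ℝ) + 1) := by
    intro i j hij
    apply one_div_le_one_div_of_le (by positivity)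
    have : (i : ℝ) ≤ j := by exact_mod_cast hij
    linarith
  apply hK.induction_on (p := fun S => ∃ j : ℕ, ∀ k ∈ S, Lev N e (g * k) (1 / ((j : ℝ) + 1)))
  · exact ⟨0, fun k hk => absurd hk (Set.notMem_empty k)⟩
  · rintro s t hst ⟨j, hj⟩
    exact ⟨j, fun k hk => hj k (hst hk)⟩
  · rintro s t ⟨i, hi⟩ ⟨j, hj⟩
    refine ⟨max i j, fun k hk => ?_⟩
    rcases hk with hk | hk
    · exact hmono _ _ _ (hdiv _ _ (le_max_left _ _)) (hi k hk)
    · exact hmono _ _ _ (hdiv _ _ (le_max_right _ _)) (hj k hk)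
  · intro k _
    have ho : IsOpen {p : G × G | N.N ((g * p.1) * p.2 * (g * p.1)⁻¹) < e} :=
      isOpen_lt (hc.comp (by fun_prop)) continuous_const
    have hm : ((k, 1) : G × G) ∈ {p : G × G | N.N ((g * p.1) * p.2 * (g * p.1)⁻¹) < e} := by
      show N.N ((g * k) * 1 * (g * k)⁻¹) < e
      rw [mul_one, mul_inv_cancel, N.one]
      exact he
    have h2 := ho.mem_nhds hm
    rw [mem_nhds_prod_iff] at h2
    obtain ⟨U, hU, W, hW, hUW⟩ := h2
    obtain ⟨ε, hε, hεW⟩ := N.basis W hW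
    obtain ⟨j, hj⟩ := exists_nat_one_div_lt hε
    refine ⟨U, mem_nhdsWithin_of_mem_nhds hU, j, fun k' hk' y hy => ?_⟩
    by_contra hlt
    push Not at hlt
    have h3 : (g * k')⁻¹ * y * (g * k') ∈ W := hεW _ (hlt.trans hj)
    have h4 : N.N ((g * k') * ((g * k')⁻¹ * y * (g * k')) * (g * k')⁻¹) < e :=
      hUW (show (k', (g * k')⁻¹ * y * (g * k')) ∈ U ×ˢ W from ⟨hk', h3⟩)
    have h5 : (g * k') * ((g * k')⁻¹ * y * (g * k')) * (g * k')⁻¹ = y := by group
    rw [h5] at h4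
    exact absurd hy (not_le.2 h4)

end

theorem vis_hist (u : Univ) (t m' : ℕ) {a b : ℕ} (hab : a ≤ b) (h : Vis (hist u a) t m') :
    Vis (hist u b) t m' := by
  induction b, hab using Nat.le_induction with
  | base => exact h
  | succ b _ ih => exact Vis.later _ _ _ _ ih

/-- the recursion of the states: node and time -/
def stt (u : Univ) (nn : ℕ → ℕ → ℕ) (ms : List (ℕ × ℕ) → ℕ) (mr : ℕ → ℕ) (x : ℕ → Bool) :
    ℕ → ℕ × ℕ
  | 0 => (0, 0)
  | k + 1 =>
    (nidx (hist u (nn (Nat.pair (stt u nn ms mr x k).1 (mr (stt u nn ms mr x k).1))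
        (stt u nn ms mr x k).2 + 1))
      (ms (hist u (nn (Nat.pair (stt u nn ms mr x k).1 (mr (stt u nn ms mr x k).1))
        (stt u nn ms mr x k).2 + 1))) (x k),
     nn (Nat.pair (stt u nn ms mr x k).1 (mr (stt u nn ms mr x k).1))
        (stt u nn ms mr x k).2 + 1)

theorem capt : CaptStmt := by
  intro G _ _ _ _ I hI N q hq D hD K hK
  -- readings
  have hms : ∀ s : List (ℕ × ℕ), ∃ m, ∀ k ∈ K, ∃ i < m, N.N ((q i)⁻¹ * k) < D.η (pidx s) :=
    fun s => cover_eta N q hq K hK _ (hD.η_pos _)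
  choose ms hms using hms
  have hmr : ∀ t : ℕ, ∃ m, ∀ k ∈ K, (∃ j < m, ∃ l ∈ D.L t, D.g t * k = l * (D.g t * q j)) ∧
      Lev N (D.e t) (D.g t * k) (1 / ((m : ℝ) + 1)) := by
    intro t
    obtain ⟨a, ha⟩ := cover_L q hq K hK (D.L t) (hD.L_open t) (hD.L_one t) (D.g t)
    obtain ⟨b, hb⟩ := lev_compact N (D.e t) (hD.e_pos t) (D.g t) K hK
    refine ⟨max a b, fun k hk => ⟨?_, ?_⟩⟩
    · obtain ⟨j, hj, h⟩ := ha k hk
      exact ⟨j, lt_of_lt_of_le hj (le_max_left _ _), h⟩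
    · intro y hy
      refine le_trans ?_ (hb k hk y hy)
      apply one_div_le_one_div_of_le (by positivity)
      have : (b : ℝ) ≤ (max a b : ℕ) := by exact_mod_cast le_max_right a b
      linarith
  choose mr hmr using hmr
  refine ⟨fun s => max (ms s) (max (mr (nidx s (ms s) true)) (mr (nidx s (ms s) false))), ?_⟩
  intro u hu x
  choose nn hnn1 hnn2 hnn3 using hu
  set st := stt u nn ms mr x with hst
  set c : ℕ → ℕ := fun k => (st k).1 with hc
  set n : ℕ → ℕ := fun k => nn (Nat.pair (c k) (mr (c k))) (st k).2 + 1 with hn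
  have hstep : ∀ k, st (k + 1) = (nidx (hist u (n k)) (ms (hist u (n k))) (x k), n k) :=
    fun k => rfl
  have hc0 : c 0 = 0 := rfl
  have hcs : ∀ k, c (k + 1) = nidx (hist u (n k)) (ms (hist u (n k))) (x k) := fun k => rfl
  have hlab : ∀ k, lab (hist u (n k)) = (c k, mr (c k)) := by
    intro k
    show Nat.unpair ((u (nn (Nat.pair (c k) (mr (c k))) (st k).2)).2 / 2) = _
    rw [hnn2, Nat.unpair_pair]
  have hH : ∀ k, max (ms (hist u (n k))) (max (mr (nidx (hist u (n k)) (ms (hist u (n k))) true))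
      (mr (nidx (hist u (n k)) (ms (hist u (n k))) false))) ≤ (u (n k)).1 := fun k => hnn3 _ _
  have hmono : ∀ k, n k + 1 ≤ n (k + 1) := by
    intro k
    have := hnn1 (Nat.pair (c (k + 1)) (mr (c (k + 1)))) (st (k + 1)).2
    have h2 : (st (k + 1)).2 = n k := rfl
    rw [h2] at this
    have h3 : n (k + 1) = nn (Nat.pair (c (k + 1)) (mr (c (k + 1)))) (st (k + 1)).2 + 1 := rfl
    rw [h3, h2]
    omega
  have hpos : ∀ k, 0 < c (k + 1) := fun k => by
    rw [hcs]
    exact nidx_pos _ _ _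
  have hnode : ∀ k, IsNode (hist u (n k)) (ms (hist u (n k))) (x k) (c (k + 1)) := by
    intro k
    refine ⟨rfl, ?_, ?_⟩
    · intro h
      have := hist_length u (n k)
      rw [h] at this
      have h3 : n k = nn (Nat.pair (c k) (mr (c k))) (st k).2 + 1 := rfl
      rw [h3] at this
      simp at this
    · rw [hlab k]
      cases k with
      | zero => exact Or.inl rfl
      | succ k =>
        right
        show Vis (hist u (n (k + 1))) (c (k + 1)) (mr (c (k + 1)))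
        apply vis_hist u _ _ (hmono k)
        have h1 := hH k
        have h2 : mr (c (k + 1)) ≤ (u (n k)).1 := by
          rw [hcs]
          cases hx : x k with
          | true => exact le_trans (le_trans (le_max_left _ _) (le_max_right _ _)) h1
          | false => exact le_trans (le_trans (le_max_right _ _) (le_max_right _ _)) h1
        have h3 : ms (hist u (n k)) ≤ (u (n k)).1 := le_trans (le_max_left _ _) h1
        rw [hcs] at h2 ⊢
        exact Vis.here (u (n k)) (hist u (n k)) (ms (hist u (n k))) (x k) _ h3 h2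
  have hI1 := fun k => hI.1 _ _ _ _ (hnode k)
  have hpar : ∀ k, I.par (c (k + 1)) = c k := fun k => by
    rw [(hI1 k).1, hlab k]
  obtain ⟨g, hg⟩ := hD.conv c (fun k => ⟨hpos k, hpar k⟩)
  refine ⟨g, fun k hk => ⟨n, fun j => ms (hist u (n j)), c, hc0, hnode, fun j => ?_, fun j => ?_⟩⟩
  · rw [hlab j]
  · refine ⟨g * (D.g (c (j + 1)))⁻¹, hg (j + 1), D.g (c j) * k, ⟨?_, ?_, ?_⟩, ?_⟩
    · rw [hpar, (hI1 j).2.2.1, (hI1 j).2.1]
      obtain ⟨i, hi, h⟩ := hms (hist u (n j)) k hk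
      refine ⟨i, hi, ?_⟩
      have h1 : (D.g (c j) * q i)⁻¹ * (D.g (c j) * k) = (q i)⁻¹ * k := by group
      rw [h1]
      exact h
    · rw [hpar, (hI1 j).2.2.2, hlab j]
      exact (hmr (c j) k hk).1
    · rw [hpar, (hI1 j).2.2.2, hlab j]
      exact (hmr (c j) k hk).2
    · rw [hD.g_succ _ (hpos j), hpar]
      group

end Pool.Agent.HNF.H46
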